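import Pool.Agent.Helper48.WeissJ.Goals
import Pool.Agent.Helper50.Weiss.Cover

/-! Packet PLAT (MP_6b0aee_an, joint version): the plateau case. -/

open Set Filter Topology

namespace Pool.Agent.Helper55.WeissJ

open Pool.Agent.Helper38.Weiss (covN covR)
open Pool.Agent.Helper42.Weiss (IsEquivMetric sepNum dynDist exists_sepNum le_sepNum
  one_le_sepNum)
open Pool.Agent.Helper50.Weiss
open Pool.Agent.Helper48.WeissJ

universe u

theorem plat : SPB.{u} → PLAT.{u} := by
  classical
  intro hSPB X _ _ _ F hFc ε₀ hε₀ h
  have hr : 0 < ε₀ / 2 := half_pos hε₀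
  have hD : IsEquivMetric (fun x y : X => min (dist x y) (ε₀ / 2)) := trunc_equiv hr
  refine ⟨fun x y => min (dist x y) (ε₀ / 2), hD, fun ε hε => ?_⟩
  rcases le_or_gt (ε₀ / 2) ε with h1 | h1
  · have h2 : ∀ T : ℕ, sepNum (fun x y : X => min (dist x y) (ε₀ / 2)) F ε T = 1 := by
      intro T
      refine le_antisymm ?_ (one_le_sepNum hD F hε T)
      obtain ⟨E, hE, hs⟩ := exists_sepNum hD F hε T
      rw [← hE, Finset.card_le_one]
      intro a ha b hb
      by_contra hab
      obtain ⟨t, -, h3⟩ := hs a ha b hb hab
      exact absurd (h3.trans_le (min_le_right _ _)) (not_lt.2 h1)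
    have h2' : ∀ T : ℕ, spanNum (fun x y : X => min (dist x y) (ε₀ / 2)) F ε T = 1 := by
      intro T
      obtain ⟨ha, hb, -, -⟩ := hSPB X _ hD F ε hε T
      exact le_antisymm (ha.trans (h2 T).le) (hb inferInstance)
    refine ⟨0, ?_, ?_⟩
    · have h3 : (fun T : ℕ =>
          Real.log (sepNum (fun x y : X => min (dist x y) (ε₀ / 2)) F ε T) / T)
          = fun _ => 0 := by
        funext T
        rw [h2]
        simp
      rw [h3]
      exact tendsto_const_nhds
    · have h3 : (fun T : ℕ =>
          Real.log (spanNum (fun x y : X => min (dist x y) (ε₀ / 2)) F ε T) / T)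
          = fun _ => 0 := by
        funext T
        rw [h2']
        simp
      rw [h3]
      exact tendsto_const_nhds
  · -- upper bound for `sep`
    have hsc : ∀ T : ℕ, sepNum (fun x y : X => min (dist x y) (ε₀ / 2)) F ε T ≤ covN F ε T := by
      intro T
      obtain ⟨E, hE, hs⟩ := exists_sepNum hD F hε T
      obtain ⟨φ, hφ⟩ := cov_spec F hε T
      have h2 : E.card ≤ covN F ε T := by
        have h3 := Finset.card_le_card_of_injOn (s := E)
          (t := (Finset.univ : Finset (Fin (covN F ε T)))) φ
          (fun _ _ => Finset.mem_coe.2 (Finset.mem_univ _)) (by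
            intro x hx y hy hxy
            by_contra hne
            obtain ⟨t, ht, h4⟩ := hs x hx y hy hne
            exact absurd (h4.trans_le (min_le_left _ _)) (not_lt.2 (hφ x y hxy t ht)))
        simpa using h3
      rw [← hE]
      exact h2
    -- lower bound for `span`
    have hcs : ∀ T : ℕ, covN F ε₀ T ≤
        spanNum (fun x y : X => min (dist x y) (ε₀ / 2)) F ε T := by
      intro T
      obtain ⟨-, -, -, S, hS, hcov⟩ := hSPB X _ hD F ε hε T
      rw [← hS]
      choose c hc1 hc2 using hcov
      refine covN_le_of F (fun x => S.equivFin ⟨c x, hc1 x⟩) ?_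
      intro x y hxy t ht
      have h4 : c x = c y := by
        have := S.equivFin.injective hxy
        simpa using this
      have hle : ∀ z, dist (F^[t] z) (F^[t] (c z)) ≤ ε₀ / 2 := by
        intro z
        have h5 := hc2 z t ht
        have h5' : min (dist (F^[t] z) (F^[t] (c z))) (ε₀ / 2) ≤ ε := h5
        rcases le_total (dist (F^[t] z) (F^[t] (c z))) (ε₀ / 2) with h6 | h6
        · exact h6
        · rw [min_eq_right h6] at h5'
          exact absurd h5' (not_le.2 h1)
      have h5 := hle x
      have h6 := hle y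
      rw [← h4] at h6
      have h7 := dist_triangle (F^[t] x) (F^[t] (c x)) (F^[t] y)
      rw [dist_comm (F^[t] (c x)) (F^[t] y)] at h7
      linarith
    have hss : ∀ T : ℕ, spanNum (fun x y : X => min (dist x y) (ε₀ / 2)) F ε T ≤
        sepNum (fun x y : X => min (dist x y) (ε₀ / 2)) F ε T := fun T =>
      (hSPB X _ hD F ε hε T).1
    have hpos0 : ∀ T : ℕ, (0 : ℝ) < covN F ε₀ T := fun T => by
      exact_mod_cast covN_pos F hε₀ T
    have hpos1 : ∀ T : ℕ,
        (0 : ℝ) < spanNum (fun x y : X => min (dist x y) (ε₀ / 2)) F ε T := fun T => by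
      exact_mod_cast (covN_pos F hε₀ T).trans_le (hcs T)
    have hpos2 : ∀ T : ℕ,
        (0 : ℝ) < sepNum (fun x y : X => min (dist x y) (ε₀ / 2)) F ε T := fun T => by
      exact_mod_cast ((covN_pos F hε₀ T).trans_le (hcs T)).trans_le (hss T)
    have hlow1 : ∀ T : ℕ, 0 < T → covR F ε₀ ≤
        Real.log (spanNum (fun x y : X => min (dist x y) (ε₀ / 2)) F ε T) / T := by
      intro T hT
      have hT' : (0 : ℝ) < T := by exact_mod_cast hT
      rw [le_div_iff₀ hT', Real.le_log_iff_exp_le (hpos1 T)]
      refine (exp_covR_le F hε₀ hT).trans ?_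
      exact_mod_cast hcs T
    have hmid : ∀ T : ℕ, 0 < T →
        Real.log (spanNum (fun x y : X => min (dist x y) (ε₀ / 2)) F ε T) / T ≤
        Real.log (sepNum (fun x y : X => min (dist x y) (ε₀ / 2)) F ε T) / T := by
      intro T hT
      refine div_le_div_of_nonneg_right (Real.log_le_log (hpos1 T) ?_) (by positivity)
      exact_mod_cast hss T
    have hup : ∀ T : ℕ, 0 < T →
        Real.log (sepNum (fun x y : X => min (dist x y) (ε₀ / 2)) F ε T) / T ≤
          Real.log (covN F ε T) / T := by
      intro T hT
      refine div_le_div_of_nonneg_right (Real.log_le_log (hpos2 T) ?_) (by positivity)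
      exact_mod_cast hsc T
    have hlim := tendsto_covR F hε
    have heq : covR F ε = covR F ε₀ := by
      refine le_antisymm (h ε hε) ?_
      refine ge_of_tendsto hlim ?_
      filter_upwards [eventually_gt_atTop 0] with T hT
      exact ((hlow1 T hT).trans (hmid T hT)).trans (hup T hT)
    rw [heq] at hlim
    refine ⟨covR F ε₀, ?_, ?_⟩
    · refine tendsto_of_tendsto_of_tendsto_of_le_of_le' tendsto_const_nhds hlim ?_ ?_
      · filter_upwards [eventually_gt_atTop 0] with T hT
        exact (hlow1 T hT).trans (hmid T hT)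
      · filter_upwards [eventually_gt_atTop 0] with T hT
        exact hup T hT
    · refine tendsto_of_tendsto_of_tendsto_of_le_of_le' tendsto_const_nhds hlim ?_ ?_
      · filter_upwards [eventually_gt_atTop 0] with T hT
        exact hlow1 T hT
      · filter_upwards [eventually_gt_atTop 0] with T hT
        exact (hmid T hT).trans (hup T hT)

end Pool.Agent.Helper55.WeissJ
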